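import Mathlib
import Pool.Agent.Helper344.Coh3

set_option autoImplicit false

namespace Pool.Agent.Results.MP_c357a0_lc.NoPiNCohesive

open Pool.Agent.Helper344.Coh1 Pool.Agent.Helper344.Coh2 Pool.Agent.Helper344.Coh3

mutual
/-- `IsSigma n S`: the set `S` of natural numbers is `Σ⁰_n` (`Σ⁰_0` means computable, and `S` is
`Σ⁰_{n+1}` when `x ∈ S ↔ ∃ y, ⟨x, y⟩ ∈ T` for some `Π⁰_n` set `T`). -/
def IsSigma : ℕ → Set ℕ → Prop
  | 0, S => ComputablePred fun x => x ∈ S
  | n + 1, S => ∃ T : Set ℕ, IsPi n T ∧ ∀ x, x ∈ S ↔ ∃ y, Nat.pair x y ∈ T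
/-- `IsPi n S`: the set `S` of natural numbers is `Π⁰_n`. -/
def IsPi : ℕ → Set ℕ → Prop
  | 0, S => ComputablePred fun x => x ∈ S
  | n + 1, S => ∃ T : Set ℕ, IsSigma n T ∧ ∀ x, x ∈ S ↔ ∀ y, Nat.pair x y ∈ T
end

/-- `C` is a c.e. partition of exponent `n`: a set of `n`-element subsets of `ℕ` such that the
strictly increasing lists which enumerate the members of `C` form a c.e. set of lists. -/
def IsCEPartition (n : ℕ) (C : Set (Finset ℕ)) : Prop :=
  (∀ s ∈ C, s.card = n) ∧ REPred fun l : List ℕ => l.Pairwise (· < ·) ∧ l.toFinset ∈ C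

/-- `H` is homogeneous for `C`: all `n`-element subsets of `H` are in `C`, or none is. -/
def Homogeneous (n : ℕ) (H : Set ℕ) (C : Set (Finset ℕ)) : Prop :=
  (∀ s : Finset ℕ, s.card = n → (s : Set ℕ) ⊆ H → s ∈ C) ∨
    (∀ s : Finset ℕ, s.card = n → (s : Set ℕ) ⊆ H → s ∉ C)

/-- `H` is almost homogeneous for `C`: homogeneous after removing finitely many elements. -/
def AlmostHomogeneous (n : ℕ) (H : Set ℕ) (C : Set (Finset ℕ)) : Prop :=
  ∃ F : Finset ℕ, Homogeneous n (H \ (F : Set ℕ)) C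

/-- `A` is `n`-cohesive: infinite, and almost homogeneous for every c.e. partition of
exponent `n`. -/
def NCohesive (n : ℕ) (A : Set ℕ) : Prop :=
  A.Infinite ∧ ∀ C : Set (Finset ℕ), IsCEPartition n C → AlmostHomogeneous n A C

/-- there is a computable approximation whose iterated limit is membership in `S` -/
def Approx (n : ℕ) (S : Set ℕ) : Prop :=
  ∃ g : List ℕ → ℕ → Bool, Computable₂ g ∧ ∀ x, IterLim n (fun l => (g l x = true ↔ x ∈ S))

lemma approx_zero (S : Set ℕ) (h : ComputablePred fun x => x ∈ S) : Approx 0 S := by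
  obtain ⟨f, hf, hS⟩ := ComputablePred.computable_iff.1 h
  refine ⟨fun _ x => f x, hf.comp Computable.snd, ?_⟩
  intro x
  have := congrFun hS x
  simp only [IterLim]
  rw [this]

open Computable in
lemma comp_bounded (h : List ℕ → ℕ → Bool) (hh : Computable₂ h) :
    Computable₂ (fun (l : List ℕ) (x : ℕ) =>
      allBelow (fun j => h l.tail (Nat.pair x j)) l.headI) := by
  have h1 : Computable (fun q : (List ℕ × ℕ) × ℕ => q.1.1.tail) :=
    (Primrec.list_tail.to_comp).comp (fst.comp fst)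
  have h2 : Computable (fun q : (List ℕ × ℕ) × ℕ => Nat.pair q.1.2 q.2) :=
    (Primrec₂.natPair.to_comp).comp (snd.comp fst) snd
  have h3 : Computable₂ (fun (p : List ℕ × ℕ) (j : ℕ) => h p.1.tail (Nat.pair p.2 j)) :=
    hh.comp h1 h2
  have h4 : Computable (fun p : List ℕ × ℕ => p.1.headI) :=
    (Primrec.list_headI.to_comp).comp fst
  exact comp_allBelow (fun (p : List ℕ × ℕ) (j : ℕ) => h p.1.tail (Nat.pair p.2 j)) h3 _ h4

lemma approx_forall (n : ℕ) (S T : Set ℕ) (hT : Approx n T)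
    (hS : ∀ x, x ∈ S ↔ ∀ y, Nat.pair x y ∈ T) : Approx (n + 1) S := by
  obtain ⟨h, hh, hlim⟩ := hT
  refine ⟨_, comp_bounded h hh, ?_⟩
  intro x
  have hb : ∃ b : ℕ, ∀ y, b ≤ y → ((∀ i < y, Nat.pair x i ∈ T) ↔ x ∈ S) := by
    by_cases hx : x ∈ S
    · exact ⟨0, fun y _ => ⟨fun _ => hx, fun _ i _ => (hS x).1 hx i⟩⟩
    · have h1 := hx
      rw [hS] at h1
      push Not at h1
      obtain ⟨i, hi⟩ := h1
      exact ⟨i + 1, fun y hy => ⟨fun h2 => absurd (h2 i (by omega)) hi, fun h2 => absurd h2 hx⟩⟩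
  obtain ⟨b, hb⟩ := hb
  refine ⟨b, fun y hy => ?_⟩
  refine (IterLim.forall_lt (p := fun i l => (h l (Nat.pair x i) = true ↔ Nat.pair x i ∈ T)) y
    (fun i => hlim (Nat.pair x i))).mono ?_
  intro l hl
  change (allBelow (fun j => h l (Nat.pair x j)) y = true ↔ x ∈ S)
  rw [← hb y hy, allBelow_iff]
  exact forall₂_congr hl

lemma approx_compl (n : ℕ) (S : Set ℕ) (hS : Approx n S) : Approx n Sᶜ := by
  obtain ⟨h, hh, hlim⟩ := hS
  refine ⟨fun l x => !h l x, (Primrec.not.to_comp).comp hh, ?_⟩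
  intro x
  refine (hlim x).mono ?_
  intro l hl
  simp only [Set.mem_compl_iff, ← hl]
  simp

lemma approx_exists (n : ℕ) (S T : Set ℕ) (hT : Approx n T)
    (hS : ∀ x, x ∈ S ↔ ∃ y, Nat.pair x y ∈ T) : Approx (n + 1) S := by
  have h1 := approx_forall n Sᶜ Tᶜ (approx_compl n T hT) (by
    intro x
    simp [hS])
  simpa using approx_compl (n + 1) Sᶜ h1

lemma approx_all (n : ℕ) : ∀ S : Set ℕ, (IsSigma n S → Approx n S) ∧ (IsPi n S → Approx n S) := by
  induction n with
  | zero =>
    intro S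
    refine ⟨fun h => ?_, fun h => ?_⟩
    · rw [IsSigma] at h
      exact approx_zero S h
    · rw [IsPi] at h
      exact approx_zero S h
  | succ n ih =>
    intro S
    refine ⟨fun h => ?_, fun h => ?_⟩
    · rw [IsSigma] at h
      obtain ⟨T, hT, hS⟩ := h
      exact approx_exists n S T ((ih T).2 hT) hS
    · rw [IsPi] at h
      obtain ⟨T, hT, hS⟩ := h
      exact approx_forall n S T ((ih T).1 hT) hS

/-- check that a list is strictly increasing -/
def chk (l : List ℕ) : Bool × ℕ :=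
  l.foldr (fun a s => (s.1 && (decide (s.2 = 0) || decide (a + 1 < s.2)), a + 1)) (true, 0)

lemma chk_spec (l : List ℕ) : ((chk l).1 = true ↔ l.Pairwise (· < ·)) ∧
    (l = [] → (chk l).2 = 0) ∧ (∀ a l', l = a :: l' → (chk l).2 = a + 1) := by
  induction l with
  | nil => simp [chk]
  | cons a l ih =>
    obtain ⟨h1, h2, h3⟩ := ih
    have hc : chk (a :: l) =
      ((chk l).1 && (decide ((chk l).2 = 0) || decide (a + 1 < (chk l).2)), a + 1) := rfl
    refine ⟨?_, by simp, ?_⟩
    · rw [hc, Bool.and_eq_true, h1, List.pairwise_cons]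
      cases l with
      | nil => simp [h2 rfl]
      | cons b l' =>
        rw [h3 b l' rfl]
        simp only [Nat.add_eq_zero_iff, one_ne_zero, and_false, decide_false, Bool.false_or,
          decide_eq_true_eq]
        rw [List.pairwise_cons]
        constructor
        · rintro ⟨⟨h5, h6⟩, h7⟩
          refine ⟨?_, h5, h6⟩
          intro z hz
          rcases List.mem_cons.1 hz with rfl | hz
          · omega
          · have := h5 z hz
            omega
        · rintro ⟨h5, h6, h7⟩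
          exact ⟨⟨h6, h7⟩, by have := h5 b (by simp); omega⟩
    · intro a' l' h
      rw [hc]
      simp only [List.cons.injEq] at h
      simp [h.1]

open Primrec in
lemma prim_chk : Primrec chk := by
  unfold chk
  refine Primrec.list_foldr (f := fun l : List ℕ => l) (g := fun _ => (true, 0))
    (h := fun _ q => (q.2.1 && (decide (q.2.2 = 0) || decide (q.1 + 1 < q.2.2)), q.1 + 1))
    Primrec.id (const _) ?_
  refine Primrec.pair (Primrec.and.comp (fst.comp (snd.comp snd)) (Primrec.or.comp ?_ ?_))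
    (succ.comp (fst.comp snd))
  · exact (Primrec.eq.comp (snd.comp (snd.comp snd)) (const 0)).decide
  · exact (Primrec.nat_lt.comp (succ.comp (fst.comp snd)) (snd.comp (snd.comp snd))).decide

/-- the colouring of lists -/
def colL (g : List ℕ → ℕ → Bool) (L : List ℕ) : Bool :=
  colT (fun x k => g L.tail (Nat.pair x k)) L.tail.headI L.headI

open Computable in
lemma comp_colL (g : List ℕ → ℕ → Bool) (hg : Computable₂ g) : Computable (colL g) := by
  have h1 : Computable (fun p : List ℕ × ℕ × ℕ => p.1.tail) :=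
    (Primrec.list_tail.to_comp).comp fst
  have h2 : Computable (fun p : List ℕ × ℕ × ℕ => Nat.pair p.2.1 p.2.2) :=
    (Primrec₂.natPair.to_comp).comp (fst.comp snd) (snd.comp snd)
  have h3 : Computable (fun p : List ℕ × ℕ × ℕ => g p.1.tail (Nat.pair p.2.1 p.2.2)) :=
    hg.comp h1 h2
  exact comp_colT (fun (L : List ℕ) x k => g L.tail (Nat.pair x k)) h3
    (fun L => L.tail.headI)
    ((Primrec.list_headI.to_comp).comp (Primrec.list_tail.to_comp))
    (fun L => L.headI) (Primrec.list_headI.to_comp)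

/-- the partition -/
def part (g : List ℕ → ℕ → Bool) (n : ℕ) : Set (Finset ℕ) :=
  {s | s.card = n ∧ colL g (s.sort (· ≤ ·)) = true}

lemma mem_part (g : List ℕ → ℕ → Bool) (n : ℕ) (l : List ℕ) (hl : l.Pairwise (· < ·)) :
    l.toFinset ∈ part g n ↔ l.length = n ∧ colL g l = true := by
  have h1 : l.Nodup := hl.imp (fun h => ne_of_lt h)
  have h2 : l.toFinset.sort (· ≤ ·) = l :=
    (List.toFinset_sort (r := (· ≤ ·)) h1).2 (hl.imp (fun h => le_of_lt h))
  unfold part
  rw [Set.mem_ofPred_eq, h2, List.toFinset_card_of_nodup h1]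

lemma part_ce (g : List ℕ → ℕ → Bool) (hg : Computable₂ g) (n : ℕ) :
    IsCEPartition n (part g n) := by
  refine ⟨fun s hs => hs.1, ?_⟩
  apply ComputablePred.to_re
  have h1 : Computable (fun l : List ℕ => (chk l).1 && (decide (l.length = n) && colL g l)) := by
    refine (Primrec.and.to_comp).comp (Primrec.to_comp (Primrec.fst.comp prim_chk))
      ((Primrec.and.to_comp).comp ?_ (comp_colL g hg))
    exact Primrec.to_comp (Primrec.eq.comp Primrec.list_length (Primrec.const n)).decide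
  refine ComputablePred.computable_iff.2 ⟨_, h1, ?_⟩
  funext l
  apply propext
  rw [Bool.and_eq_true, (chk_spec l).1, Bool.and_eq_true, decide_eq_true_eq]
  constructor
  · rintro ⟨h2, h3⟩
    exact ⟨h2, (mem_part g n l h2).1 h3⟩
  · rintro ⟨h2, h3⟩
    exact ⟨h2, (mem_part g n l h2).2 h3⟩

/-- an infinite `Π⁰_{m+3}` set fails to be almost homogeneous for some c.e. partition
of exponent `m+3` -/
theorem main (m : ℕ) (A : Set ℕ) (hinf : A.Infinite) (hA : IsPi (m + 3) A) :
    ∃ C, IsCEPartition (m + 3) C ∧ ¬ AlmostHomogeneous (m + 3) A C := by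
  classical
  rw [IsPi] at hA
  obtain ⟨T, hT, hAT⟩ := hA
  obtain ⟨g, hg, hlim⟩ := (approx_all (m + 2) T).1 hT
  refine ⟨part g (m + 3), part_ce g hg (m + 3), ?_⟩
  rintro ⟨F, hF⟩
  set H : Set ℕ := A \ (F : Set ℕ) with hH
  have hHinf : H.Infinite := hinf.sdiff F.finite_toSet
  let D : ℕ → ℕ → Bool := fun x k => decide (Nat.pair x k ∈ T)
  have hAD : ∀ x, x ∈ A ↔ ∀ s, x < s → alOf D s x = true := by
    intro x
    rw [hAT]
    constructor
    · intro h s hs
      rw [alOf_iff]
      exact ⟨hs, fun k _ => by simp [D, h k]⟩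
    · intro h k
      have h1 := h (max x k + 1) (by omega)
      rw [alOf_iff] at h1
      have h2 := h1.2 k (by omega)
      simpa [D] using h2
  obtain ⟨s, u, v, huv, hne, huA, hvA, hMu, hMv⟩ :=
    exists_pair (alOf D) (alOf_alive D) A hinf hAD (F.sup id)
  have hFn : ∀ w, F.sup id < w → w ∉ (F : Set ℕ) := by
    intro w hw hwF
    have := Finset.le_sup (f := id) hwF
    simp only [id] at this
    omega
  have huH : u ∈ H := ⟨huA, hFn u hMu⟩
  have hvH : v ∈ H := ⟨hvA, hFn v hMv⟩
  have hL1 : IterLim (m + 2) (fun l => ∀ i < s * s, (g l i = true ↔ i ∈ T)) :=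
    IterLim.forall_lt (p := fun i l => (g l i = true ↔ i ∈ T)) (s * s) hlim
  have hL2 : IterLim (m + 2) (fun l => s ≤ l.headI) :=
    ⟨s, fun y hy => IterLim.of_forall (fun l => by simpa using hy)⟩
  obtain ⟨l, hlen, hlp, hlH, hl1, hl2⟩ := (hL1.and hL2).exists_list H hHinf (max u v)
  have hDD : ∀ x < s, ∀ k < s, (fun x k => g l (Nat.pair x k)) x k = D x k := by
    intro x hx k hk
    have h3 : Nat.pair x k < s * s := by
      have h4 := Nat.pair_lt_max_add_one_sq x k
      have h5 : (max x k + 1) ^ 2 ≤ s * s := by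
        rw [sq]
        exact Nat.mul_le_mul (by omega) (by omega)
      omega
    have h6 := hl1 _ h3
    rw [Bool.eq_iff_iff]
    simp only [D, decide_eq_true_eq]
    exact h6
  have hrun : run (alOf (fun x k => g l (Nat.pair x k))) s = run (alOf D) s :=
    run_congr _ _ s (alOf_congr _ _ s hDD)
  have hcol := col_ne (alOf (fun x k => g l (Nat.pair x k))) (alOf_alive _) s u v hne
    (by rw [hrun]; exact huv) l.headI hl2
  rw [← colT_eq, ← colT_eq] at hcol
  have hu : colL g (u :: l) = colT (fun x k => g l (Nat.pair x k)) l.headI u := rfl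
  have hv : colL g (v :: l) = colT (fun x k => g l (Nat.pair x k)) l.headI v := rfl
  rw [← hu, ← hv] at hcol
  have hup : (u :: l).Pairwise (· < ·) := by
    rw [List.pairwise_cons]
    exact ⟨fun z hz => by have := (hlH z hz).2; omega, hlp⟩
  have hvp : (v :: l).Pairwise (· < ·) := by
    rw [List.pairwise_cons]
    exact ⟨fun z hz => by have := (hlH z hz).2; omega, hlp⟩
  have hsub : ∀ w, w ∈ H → (((w :: l).toFinset : Finset ℕ) : Set ℕ) ⊆ H := by
    intro w hw z hz
    simp only [List.coe_toFinset, List.mem_cons, Set.mem_ofPred_eq] at hz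
    rcases hz with rfl | hz
    · exact hw
    · exact (hlH z hz).1
  have hcard : ∀ w, (w :: l).Pairwise (· < ·) → (w :: l).toFinset.card = m + 3 := by
    intro w hw
    rw [List.toFinset_card_of_nodup (hw.imp (fun h => ne_of_lt h))]
    simp [hlen]
  have hmu := mem_part g (m + 3) (u :: l) hup
  have hmv := mem_part g (m + 3) (v :: l) hvp
  have hlu : (u :: l).length = m + 3 := by simp [hlen]
  have hlv : (v :: l).length = m + 3 := by simp [hlen]
  rcases hF with hF | hF
  · have h7 := (hmu.1 (hF _ (hcard u hup) (hsub u huH))).2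
    have h8 := (hmv.1 (hF _ (hcard v hvp) (hsub v hvH))).2
    exact hcol (by rw [h7, h8])
  · have h7 : ¬ colL g (u :: l) = true := fun h =>
      hF _ (hcard u hup) (hsub u huH) (hmu.2 ⟨hlu, h⟩)
    have h8 : ¬ colL g (v :: l) = true := fun h =>
      hF _ (hcard v hvp) (hsub v hvH) (hmv.2 ⟨hlv, h⟩)
    exact hcol (by rw [Bool.eq_false_iff.2 h7, Bool.eq_false_iff.2 h8])

/-- For every `n ≥ 3` no `n`-cohesive set is `Π⁰_n`. -/
theorem result : ∀ n : ℕ, 3 ≤ n → ¬ ∃ A : Set ℕ, NCohesive n A ∧ IsPi n A := by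
  rintro n hn ⟨A, ⟨hinf, hcoh⟩, hA⟩
  obtain ⟨m, rfl⟩ : ∃ m, n = m + 3 := ⟨n - 3, by omega⟩
  obtain ⟨C, hC, hnot⟩ := main m A hinf hA
  exact hnot (hcoh C hC)

end Pool.Agent.Results.MP_c357a0_lc.NoPiNCohesive
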